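import Pool.Agent.Q156.BanE

/-!
Vector balancing for the best translate of a convex body:
`inf_x β(B_2^n, V + x) ≤ inf_y f(γ_n(V + y))` with `f(p) = 100 √2 (1 + 80 / p^3)`.
-/

set_option autoImplicit false

open MeasureTheory ProbabilityTheory Set

namespace Pool.Agent.Results.MP_ff773e_gt.TranslatedBound

open Pool.Agent.Q156.Ban

/-- There is a non-increasing function `f` on `(0,1)` with positive values, not depending on the
dimension, with `inf_x β(B_2^n, V + x) ≤ inf_y f(γ_n(V + y))` for all convex bodies `V`, the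
infimum on the left being over those `x` for which the origin lies in the interior of `V + x`. -/
theorem result : ∃ f : ℝ → ℝ, (∀ p, f p = 100 * Real.sqrt 2 * (1 + 80 / p ^ 3)) ∧
    AntitoneOn f (Ioo 0 1) ∧ (∀ p ∈ Ioo (0 : ℝ) 1, 0 < f p) ∧
    ∀ n : ℕ, 1 ≤ n → ∀ V : Set (EuclideanSpace ℝ (Fin n)), IsCompact V → Convex ℝ V →
      (interior V).Nonempty →
      (⨅ x : {x : EuclideanSpace ℝ (Fin n) //
          (0 : EuclideanSpace ℝ (Fin n)) ∈ interior (tr V x)}, beta (tr V x)) ≤
        ⨅ y : EuclideanSpace ℝ (Fin n),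
          ENNReal.ofReal (f (stdGaussian (EuclideanSpace ℝ (Fin n)) (tr V y)).toReal) :=
  ⟨G, fun _ => rfl, G_anti.mono Ioo_subset_Ioi_self, fun p hp => G_pos p hp.1,
    fun _ _ _ hV hc hne => iInf_translate hV hc hne⟩

end Pool.Agent.Results.MP_ff773e_gt.TranslatedBound
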